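import Pool.Agent.V11129.CompCount

/-!
# The Tutte polynomial lies in the ideal of the vertex contractions at a neighbourhood
-/

set_option autoImplicit false

namespace Pool.Agent.Results.MP_8e541a_co.Membership

open Finset Pool.Agent.V11129

universe u v w

variable {V : Type u} {E : Type v}

/-- The rank `r(A) = |V| - k(A)`, with `k(A)` the number of components of `(V, A)`. -/
noncomputable def rank (ends : E → Sym2 V) (A : Finset E) : ℕ :=
  Nat.card V - Nat.card (spanningSub ends A).ConnectedComponent

/-- The Tutte polynomial of the multigraph with vertex set `V` and edge set `S`, over the ring `R`,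
with `x = X 0` and `y = X 1`. -/
noncomputable def tutte (R : Type w) [CommRing R] (ends : E → Sym2 V) (S : Finset E) :
    MvPolynomial (Fin 2) R :=
  ∑ A ∈ S.powerset, (MvPolynomial.X 0 - 1) ^ (rank ends S - rank ends A) *
    (MvPolynomial.X 1 - 1) ^ (A.card - rank ends A)

/-- Two vertices are identified if they are equal or both lie in `U`. -/
def identify (U : Finset V) : Setoid V where
  r a b := a = b ∨ (a ∈ U ∧ b ∈ U)
  iseqv := by
    refine ⟨fun a => Or.inl rfl, ?_, ?_⟩
    · rintro a b (rfl | ⟨h1, h2⟩)
      · exact Or.inl rfl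
      · exact Or.inr ⟨h2, h1⟩
    · rintro a b c (rfl | ⟨h1, h2⟩) (rfl | ⟨h3, h4⟩)
      · exact Or.inl rfl
      · exact Or.inr ⟨h3, h4⟩
      · exact Or.inr ⟨h1, h2⟩
      · exact Or.inr ⟨h1, h4⟩

/-- The ends of the edges after identifying all vertices of `U` into a single vertex. -/
def contractEnds (ends : E → Sym2 V) (U : Finset V) : E → Sym2 (Quotient (identify U)) :=
  fun e => (ends e).map (Quotient.mk (identify U))

open Classical in
/-- The edges that are not loops. -/
noncomputable def nonLoops (ends : E → Sym2 V) (S : Finset E) : Finset E :=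
  S.filter fun e => ¬ (ends e).IsDiag

/-- The Tutte polynomial of the vertex contraction at `U`, with all loops deleted. -/
noncomputable def tutteContract (R : Type w) [CommRing R] (ends : E → Sym2 V) (S : Finset E)
    (U : Finset V) : MvPolynomial (Fin 2) R :=
  tutte R (contractEnds ends U) (nonLoops (contractEnds ends U) S)

open Classical in
/-- The neighbours of `s`, excluding `s` itself. -/
noncomputable def nbrs [Fintype V] (ends : E → Sym2 V) (S : Finset E) (s : V) : Finset V :=
  univ.filter fun v => v ≠ s ∧ ∃ e ∈ S, ends e = s(s, v)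

/-! ### Components after contraction -/

/-- The star with centre `s` and leaves `U`. -/
def star (s : V) (U : Finset V) : SimpleGraph V :=
  SimpleGraph.fromEdgeSet {e | ∃ x ∈ U, e = s(s, x)}

/-- The number of components of `(V, A)` after identifying `U ∪ {s}`. -/
noncomputable def k (ends : E → Sym2 V) (s : V) (A : Finset E) (U : Finset V) : ℕ :=
  nc (spanningSub ends A ⊔ star s U)

theorem star_reachable (s : V) (U : Finset V) (x : V) (hx : x ∈ U) : (star s U).Reachable s x := by
  by_cases h : s = x
  · rw [h]
  · apply SimpleGraph.Adj.reachable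
    rw [star, SimpleGraph.fromEdgeSet_adj]
    exact ⟨⟨x, hx, rfl⟩, h⟩

theorem nc_contract [DecidableEq V] (ends : E → Sym2 V) (s : V) (A : Finset E) (U : Finset V) :
    nc (spanningSub (contractEnds ends (insert s U)) A) = k ends s A U := by
  symm
  apply card_comp_of_map _ _ (Quotient.mk (identify (insert s U))) Quotient.mk_surjective
  · intro a b h
    rw [SimpleGraph.sup_adj] at h
    rcases h with h | h
    · by_cases hab : Quotient.mk (identify (insert s U)) a = Quotient.mk (identify (insert s U)) b
      · rw [hab]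
      · apply SimpleGraph.Adj.reachable
        rw [spanningSub, SimpleGraph.fromEdgeSet_adj] at h ⊢
        obtain ⟨⟨e, he, hee⟩, -⟩ := h
        refine ⟨⟨e, he, ?_⟩, hab⟩
        rw [contractEnds, hee, Sym2.map_mk]
    · rw [star, SimpleGraph.fromEdgeSet_adj] at h
      obtain ⟨⟨x, hx, hxe⟩, -⟩ := h
      have : Quotient.mk (identify (insert s U)) a = Quotient.mk (identify (insert s U)) b := by
        apply Quotient.sound
        rw [Sym2.eq_iff] at hxe
        rcases hxe with ⟨rfl, rfl⟩ | ⟨rfl, rfl⟩
        · exact Or.inr ⟨Finset.mem_insert_self _ _, Finset.mem_insert_of_mem hx⟩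
        · exact Or.inr ⟨Finset.mem_insert_of_mem hx, Finset.mem_insert_self _ _⟩
      rw [this]
  · intro a b h
    have h' : (identify (insert s U)).r a b := Quotient.exact h
    have key : ∀ c, c ∈ insert s U → (spanningSub ends A ⊔ star s U).Reachable s c := by
      intro c hc
      rw [Finset.mem_insert] at hc
      rcases hc with rfl | hc
      · exact SimpleGraph.Reachable.refl _
      · exact (star_reachable s U c hc).mono le_sup_right
    rcases h' with rfl | ⟨h1, h2⟩
    · exact SimpleGraph.Reachable.refl _
    · exact (key a h1).symm.trans (key b h2)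
  · intro a b h
    have key : ∀ c, c ∈ insert s U → (spanningSub ends A ⊔ star s U).Reachable s c := by
      intro c hc
      rw [Finset.mem_insert] at hc
      rcases hc with rfl | hc
      · exact SimpleGraph.Reachable.refl _
      · exact (star_reachable s U c hc).mono le_sup_right
    have key2 : ∀ a b, Quotient.mk (identify (insert s U)) a =
        Quotient.mk (identify (insert s U)) b →
        (spanningSub ends A ⊔ star s U).Reachable a b := by
      intro a b hab
      have h' : (identify (insert s U)).r a b := Quotient.exact hab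
      rcases h' with rfl | ⟨h1, h2⟩
      · exact SimpleGraph.Reachable.refl _
      · exact (key a h1).symm.trans (key b h2)
    rw [spanningSub, SimpleGraph.fromEdgeSet_adj] at h
    obtain ⟨⟨e, he, hee⟩, hne⟩ := h
    rw [contractEnds] at hee
    obtain ⟨c, d, hcd⟩ : ∃ c d, ends e = s(c, d) := by
      induction h : ends e using Sym2.ind with
      | _ c d => exact ⟨c, d, rfl⟩
    rw [hcd, Sym2.map_mk, Sym2.eq_iff] at hee
    have hadj : (spanningSub ends A ⊔ star s U).Reachable c d := by
      by_cases h : c = d
      · rw [h]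
      · apply SimpleGraph.Adj.reachable
        rw [SimpleGraph.sup_adj]
        left
        rw [spanningSub, SimpleGraph.fromEdgeSet_adj]
        exact ⟨⟨e, he, hcd⟩, h⟩
    rcases hee with ⟨h1, h2⟩ | ⟨h1, h2⟩
    · exact (key2 _ _ h1.symm).trans (hadj.trans (key2 _ _ h2))
    · exact (key2 _ _ h2.symm).trans (hadj.symm.trans (key2 _ _ h1))

/-- The number of vertices after contraction. -/
theorem card_contract [Fintype V] [DecidableEq V] (s : V) (U : Finset V) (hs : s ∉ U) :
    Nat.card (Quotient (identify (insert s U))) + U.card = Fintype.card V := by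
  have : Nat.card (Quotient (identify (insert s U))) = Nat.card {v // v ∉ U} := by
    symm
    apply Nat.card_congr
    refine Equiv.ofBijective (fun v => Quotient.mk (identify (insert s U)) v.1) ⟨?_, ?_⟩
    · rintro ⟨a, ha⟩ ⟨b, hb⟩ h
      have h' : (identify (insert s U)).r a b := Quotient.exact h
      rcases h' with h' | ⟨h1, h2⟩
      · exact Subtype.ext h'
      · rw [Finset.mem_insert] at h1 h2
        apply Subtype.ext
        exact (h1.resolve_right ha).trans (h2.resolve_right hb).symm
    · intro x
      obtain ⟨a, rfl⟩ := Quotient.mk_surjective x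
      by_cases ha : a ∈ U
      · refine ⟨⟨s, hs⟩, Quotient.sound ?_⟩
        exact Or.inr ⟨Finset.mem_insert_self _ _, Finset.mem_insert_of_mem ha⟩
      · exact ⟨⟨a, ha⟩, rfl⟩
  rw [this, Nat.card_eq_fintype_card, Fintype.card_subtype_compl, Fintype.card_coe]
  exact Nat.sub_add_cancel (Finset.card_le_univ U)

/-! ### The partition function -/

section Alg

variable {R : Type w} [CommRing R]

/-- The polynomial `q = (x - 1) (y - 1)`. -/
noncomputable def q (R : Type w) [CommRing R] : MvPolynomial (Fin 2) R :=
  (MvPolynomial.X 0 - 1) * (MvPolynomial.X 1 - 1)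

/-- The polynomial `v = y - 1`. -/
noncomputable def vv (R : Type w) [CommRing R] : MvPolynomial (Fin 2) R := MvPolynomial.X 1 - 1

/-- From the Tutte polynomial to the partition function. -/
theorem tutte_mul [Finite V] [Nonempty V] (ends : E → Sym2 V) (S : Finset E)
    (h1 : nc (spanningSub ends S) = 1) :
    tutte R ends S * ((MvPolynomial.X 0 - 1) * (MvPolynomial.X 1 - 1) ^ Nat.card V) =
      ∑ A ∈ S.powerset, vv R ^ A.card * q R ^ nc (spanningSub ends A) := by
  have : Fintype V := Fintype.ofFinite V
  rw [tutte, Finset.sum_mul]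
  apply Finset.sum_congr rfl
  intro A _
  have h2 := nc_pos (spanningSub ends A)
  have h3 := nc_le_card (spanningSub ends A)
  have h4 := card_le_nc_add ends A
  have e1 : rank ends S = Nat.card V - nc (spanningSub ends S) := rfl
  have e2 : rank ends A = Nat.card V - nc (spanningSub ends A) := rfl
  rw [Nat.card_eq_fintype_card] at e1 e2 ⊢
  have h5 := Fintype.card_pos (α := V)
  have e3 : rank ends S - rank ends A + 1 = nc (spanningSub ends A) := by omega
  have e4 : A.card - rank ends A + Fintype.card V = A.card + nc (spanningSub ends A) := by omega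
  calc (MvPolynomial.X 0 - 1 : MvPolynomial (Fin 2) R) ^ (rank ends S - rank ends A) *
        (MvPolynomial.X 1 - 1) ^ (A.card - rank ends A) *
        ((MvPolynomial.X 0 - 1) * (MvPolynomial.X 1 - 1) ^ Fintype.card V)
      = (MvPolynomial.X 0 - 1) ^ (rank ends S - rank ends A + 1) *
        (MvPolynomial.X 1 - 1) ^ (A.card - rank ends A + Fintype.card V) := by ring
    _ = vv R ^ A.card * q R ^ nc (spanningSub ends A) := by
        rw [e3, e4, vv, q, mul_pow, pow_add]
        ring

variable [DecidableEq E]

open Classical in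
/-- The edges of `S` joining `s` and `w`. -/
noncomputable def del (ends : E → Sym2 V) (S : Finset E) (s w : V) : Finset E :=
  S.filter fun e => ends e = s(s, w)

theorem mem_del (ends : E → Sym2 V) (S : Finset E) (s w : V) (e : E) :
    e ∈ del ends S s w ↔ e ∈ S ∧ ends e = s(s, w) := by
  unfold del
  simp only [Finset.mem_filter]

open Classical in
/-- The partition function of the sets that contain no edge from `s` to `X`, and at least one edge
from `s` to each vertex in `Y`, with `X ∪ {s}` identified. -/
noncomputable def ZZ (R : Type w) [CommRing R] (ends : E → Sym2 V) (S : Finset E) (s : V)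
    (X Y : Finset V) : MvPolynomial (Fin 2) R :=
  ∑ A ∈ S.powerset with (∀ w ∈ X, Disjoint A (del ends S s w)) ∧
    (∀ w ∈ Y, ¬ Disjoint A (del ends S s w)), vv R ^ A.card * q R ^ k ends s A X

theorem del_disjoint (ends : E → Sym2 V) (S : Finset E) (s w w' : V) (h : w ≠ w') :
    Disjoint (del ends S s w) (del ends S s w') := by
  classical
  rw [Finset.disjoint_left]
  intro e h1 h2
  rw [mem_del] at h1 h2
  have := h1.2.symm.trans h2.2
  rw [Sym2.eq_iff] at this
  rcases this with ⟨-, h3⟩ | ⟨h3, h4⟩
  · exact h h3
  · exact h (h4.trans h3)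

theorem k_insert (ends : E → Sym2 V) (S : Finset E) (s w : V) [DecidableEq V] (A B : Finset E)
    (X : Finset V) (hB : B ⊆ del ends S s w) (hne : B.Nonempty) :
    k ends s (A ∪ B) X = k ends s A (insert w X) := by
  classical
  unfold k
  congr 1
  ext a b
  simp only [SimpleGraph.sup_adj, spanningSub, star, SimpleGraph.fromEdgeSet_adj,
    Set.mem_ofPred_eq, Finset.mem_union, Finset.mem_insert]
  constructor
  · rintro (⟨⟨e, he | he, hee⟩, hab⟩ | ⟨⟨x, hx, hxe⟩, hab⟩)
    · exact Or.inl ⟨⟨e, he, hee⟩, hab⟩
    · have := hB he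
      rw [mem_del] at this
      exact Or.inr ⟨⟨w, Or.inl rfl, hee.symm.trans this.2⟩, hab⟩
    · exact Or.inr ⟨⟨x, Or.inr hx, hxe⟩, hab⟩
  · rintro (⟨⟨e, he, hee⟩, hab⟩ | ⟨⟨x, rfl | hx, hxe⟩, hab⟩)
    · exact Or.inl ⟨⟨e, Or.inl he, hee⟩, hab⟩
    · obtain ⟨e, he⟩ := hne
      have := hB he
      rw [mem_del] at this
      exact Or.inl ⟨⟨e, Or.inr he, this.2.trans hxe.symm⟩, hab⟩
    · exact Or.inr ⟨⟨x, hx, hxe⟩, hab⟩

theorem sum_nonempty_powerset (D : Finset E) :
    ∑ B ∈ D.powerset with B.Nonempty, vv R ^ B.card =
      (MvPolynomial.X 1 : MvPolynomial (Fin 2) R) ^ D.card - 1 := by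
  classical
  have h1 : ∑ B ∈ D.powerset, vv R ^ B.card =
      (MvPolynomial.X 1 : MvPolynomial (Fin 2) R) ^ D.card := by
    have := Finset.sum_pow_mul_eq_add_pow (vv R) 1 D
    simp only [one_pow, mul_one] at this
    rw [this, vv, sub_add_cancel]
  rw [← h1, ← Finset.sum_filter_add_sum_filter_not D.powerset (fun B => B.Nonempty)]
  have : (D.powerset.filter fun B => ¬ B.Nonempty) = {∅} := by
    ext B
    simp only [Finset.mem_filter, Finset.mem_powerset, Finset.not_nonempty_iff_eq_empty,
      Finset.mem_singleton]
    constructor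
    · exact fun h => h.2
    · rintro rfl
      exact ⟨Finset.empty_subset _, rfl⟩
  rw [this]
  simp

theorem ZZ_step [DecidableEq V] (ends : E → Sym2 V) (S : Finset E) (s w : V) (X Y : Finset V)
    (hX : w ∉ X) (hY : w ∉ Y) :
    ZZ R ends S s X (insert w Y) =
      ((MvPolynomial.X 1 : MvPolynomial (Fin 2) R) ^ (del ends S s w).card - 1) *
        ZZ R ends S s (insert w X) Y := by
  classical
  rw [← sum_nonempty_powerset, ZZ, ZZ, Finset.sum_mul_sum, ← Finset.sum_product']
  refine Finset.sum_bij' (fun A _ => (A ∩ del ends S s w, A \ del ends S s w))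
    (fun p _ => p.2 ∪ p.1) ?_ ?_ ?_ ?_ ?_
  · intro A hA
    simp only [Finset.mem_filter, Finset.mem_powerset, Finset.mem_insert, forall_eq_or_imp] at hA
    obtain ⟨hAS, hAX, hAw, hAY⟩ := hA
    simp only [Finset.mem_product, Finset.mem_filter, Finset.mem_powerset, Finset.mem_insert,
      forall_eq_or_imp]
    refine ⟨⟨Finset.inter_subset_right, ?_⟩, (Finset.sdiff_subset).trans hAS,
      ⟨Finset.sdiff_disjoint, ?_⟩, ?_⟩
    · rw [Finset.disjoint_iff_inter_eq_empty] at hAw
      exact Finset.nonempty_iff_ne_empty.2 hAw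
    · intro w' hw'
      exact (hAX w' hw').mono_left Finset.sdiff_subset
    · intro w' hw' hd
      apply hAY w' hw'
      have hne : w ≠ w' := by
        rintro rfl
        exact hY hw'
      have hdd := del_disjoint ends S s w w' hne
      rw [Finset.disjoint_left] at hd hdd ⊢
      intro e he hew
      by_cases h : e ∈ del ends S s w
      · exact hdd h hew
      · exact hd (Finset.mem_sdiff.2 ⟨he, h⟩) hew
  · rintro ⟨B, A⟩ hp
    simp only [Finset.mem_product, Finset.mem_filter, Finset.mem_powerset, Finset.mem_insert,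
      forall_eq_or_imp] at hp
    obtain ⟨⟨hB, hBne⟩, hAS, ⟨hAw, hAX⟩, hAY⟩ := hp
    simp only [Finset.mem_filter, Finset.mem_powerset, Finset.mem_insert, forall_eq_or_imp]
    have hBS : B ⊆ S := fun e he => ((mem_del ends S s w e).1 (hB he)).1
    refine ⟨Finset.union_subset hAS hBS, ?_, ?_, ?_⟩
    · intro w' hw'
      have hne : w ≠ w' := by
        rintro rfl
        exact hX hw'
      rw [Finset.disjoint_union_left]
      exact ⟨hAX w' hw', (del_disjoint ends S s w w' hne).mono_left hB⟩
    · obtain ⟨e, he⟩ := hBne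
      rw [Finset.disjoint_left]
      exact fun h => h (Finset.mem_union_right _ he) (hB he)
    · intro w' hw' hd
      exact hAY w' hw' (hd.mono_left Finset.subset_union_left)
  · intro A _
    simp only
    rw [Finset.sdiff_union_inter]
  · rintro ⟨B, A⟩ hp
    simp only [Finset.mem_product, Finset.mem_filter, Finset.mem_powerset, Finset.mem_insert,
      forall_eq_or_imp] at hp
    obtain ⟨⟨hB, hBne⟩, hAS, ⟨hAw, hAX⟩, hAY⟩ := hp
    simp only [Prod.mk.injEq]
    constructor
    · rw [Finset.union_inter_distrib_right, Finset.disjoint_iff_inter_eq_empty.1 hAw,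
        Finset.empty_union, Finset.inter_eq_left.2 hB]
    · rw [Finset.union_sdiff_distrib, Finset.sdiff_eq_empty_iff_subset.2 hB, Finset.union_empty,
        Finset.sdiff_eq_self_of_disjoint hAw]
  · intro A hA
    simp only [Finset.mem_filter, Finset.mem_powerset, Finset.mem_insert, forall_eq_or_imp] at hA
    obtain ⟨hAS, hAX, hAw, hAY⟩ := hA
    have hne : (A ∩ del ends S s w).Nonempty := by
      rw [Finset.disjoint_iff_inter_eq_empty] at hAw
      exact Finset.nonempty_iff_ne_empty.2 hAw
    have h1 := k_insert ends S s w (A \ del ends S s w) (A ∩ del ends S s w) X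
      Finset.inter_subset_right hne
    rw [Finset.sdiff_union_inter] at h1
    rw [h1, ← Finset.card_inter_add_card_sdiff A (del ends S s w)]
    ring

theorem ZZ_prod [DecidableEq V] (ends : E → Sym2 V) (S : Finset E) (s : V) (Y : Finset V) :
    ∀ X : Finset V, Disjoint X Y → ZZ R ends S s X Y =
      (∏ w ∈ Y, ((MvPolynomial.X 1 : MvPolynomial (Fin 2) R) ^ (del ends S s w).card - 1)) *
        ZZ R ends S s (X ∪ Y) ∅ := by
  induction Y using Finset.induction_on with
  | empty =>
    intro X _
    simp
  | insert w Y hw ih =>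
    intro X hX
    rw [Finset.disjoint_insert_right] at hX
    rw [ZZ_step ends S s w X Y hX.1 hw, ih (insert w X), Finset.prod_insert hw]
    · rw [Finset.insert_union, Finset.union_insert]
      ring
    · rw [Finset.disjoint_insert_left]
      exact ⟨hw, hX.2⟩

/-- The partition function of the sets without edges from `s` to `N`. -/
noncomputable def BB (R : Type w) [CommRing R] (ends : E → Sym2 V) (S : Finset E) (s : V)
    (N X : Finset V) : MvPolynomial (Fin 2) R :=
  open Classical in
  ∑ A ∈ S.powerset with (∀ w ∈ N, Disjoint A (del ends S s w)), vv R ^ A.card * q R ^ k ends s A X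

theorem BB_eq [DecidableEq V] (ends : E → Sym2 V) (S : Finset E) (s : V) (N X : Finset V) :
    BB R ends S s (X ∪ N) X = ∑ Y ∈ N.powerset, (-1) ^ Y.card * ZZ R ends S s X Y := by
  classical
  simp only [ZZ, BB, Finset.sum_filter, Finset.mul_sum]
  rw [Finset.sum_comm]
  apply Finset.sum_congr rfl
  intro A _
  by_cases h : ∀ w ∈ X, Disjoint A (del ends S s w)
  · have h1 : ∀ Y ∈ N.powerset, ((-1 : MvPolynomial (Fin 2) R) ^ Y.card *
        (if (∀ w ∈ X, Disjoint A (del ends S s w)) ∧ (∀ w ∈ Y, ¬ Disjoint A (del ends S s w)) then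
          vv R ^ A.card * q R ^ k ends s A X else 0)) =
        (if Y ⊆ N.filter fun w => ¬ Disjoint A (del ends S s w) then (-1) ^ Y.card else 0) *
          (vv R ^ A.card * q R ^ k ends s A X) := by
      intro Y hY
      have : (Y ⊆ N.filter fun w => ¬ Disjoint A (del ends S s w)) ↔
          ∀ w ∈ Y, ¬ Disjoint A (del ends S s w) := by
        constructor
        · intro h w hw
          exact (Finset.mem_filter.1 (h hw)).2
        · intro h w hw
          exact Finset.mem_filter.2 ⟨Finset.mem_powerset.1 hY hw, h w hw⟩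
      by_cases h7 : ∀ w ∈ Y, ¬ Disjoint A (del ends S s w)
      · rw [if_pos ⟨h, h7⟩, if_pos (this.2 h7)]
      · rw [if_neg (fun hh => h7 hh.2), if_neg (fun hh => h7 (this.1 hh))]
        simp
    rw [Finset.sum_congr rfl h1, ← Finset.sum_mul, ← Finset.sum_filter]
    have h2 : (N.powerset.filter fun Y => Y ⊆ N.filter fun w => ¬ Disjoint A (del ends S s w)) =
        (N.filter fun w => ¬ Disjoint A (del ends S s w)).powerset := by
      ext Y
      simp only [Finset.mem_filter, Finset.mem_powerset]
      constructor
      · exact fun h => h.2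
      · exact fun h => ⟨h.trans (Finset.filter_subset _ _), h⟩
    rw [h2]
    have h3 : (∑ Y ∈ (N.filter fun w => ¬ Disjoint A (del ends S s w)).powerset,
        (-1 : MvPolynomial (Fin 2) R) ^ Y.card) =
        if (N.filter fun w => ¬ Disjoint A (del ends S s w)) = ∅ then 1 else 0 := by
      have := Finset.sum_powerset_neg_one_pow_card
        (x := N.filter fun w => ¬ Disjoint A (del ends S s w))
      have h4 := congrArg (Int.cast : ℤ → MvPolynomial (Fin 2) R) this
      push_cast at h4
      exact h4
    rw [h3]
    have h5 : (∀ w ∈ X ∪ N, Disjoint A (del ends S s w)) ↔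
        (N.filter fun w => ¬ Disjoint A (del ends S s w)) = ∅ := by
      rw [Finset.filter_eq_empty_iff]
      simp only [not_not]
      constructor
      · exact fun h w hw => h w (Finset.mem_union_right _ hw)
      · intro h' w hw
        rcases Finset.mem_union.1 hw with hw | hw
        · exact h w hw
        · exact h' hw
    by_cases h6 : (N.filter fun w => ¬ Disjoint A (del ends S s w)) = ∅
    · rw [if_pos (h5.2 h6), if_pos h6, one_mul]
    · rw [if_neg (fun hh => h6 (h5.1 hh)), if_neg h6, zero_mul]
  · rw [if_neg]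
    · symm
      apply Finset.sum_eq_zero
      intro Y _
      rw [if_neg (fun hh => h hh.1), mul_zero]
    · exact fun hh => h fun w hw => hh w (Finset.mem_union_left _ hw)

theorem star_empty (s : V) : star s (∅ : Finset V) = ⊥ := by
  ext a b
  simp [star]

theorem k_empty (ends : E → Sym2 V) (s : V) (A : Finset E) :
    k ends s A ∅ = nc (spanningSub ends A) := by
  rw [k, star_empty, sup_bot_eq]

/-- Joining the isolated vertex `s` to `u`. -/
theorem k_isolated [Fintype V] (ends : E → Sym2 V) (s u : V) (hu : u ≠ s) (A : Finset E)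
    (h : ∀ w, w ≠ s → ∀ e ∈ A, ends e ≠ s(s, w)) :
    k ends s A ∅ = k ends s A {u} + 1 := by
  rw [k_empty, k]
  have : star s {u} = SimpleGraph.fromEdgeSet {s(s, u)} := by
    unfold star
    congr 1
    ext e
    simp
  rw [this]
  apply nc_add_edge
  rintro ⟨w⟩
  cases w with
  | nil => exact hu rfl
  | @cons _ z _ hadj _ =>
    rw [spanningSub, SimpleGraph.fromEdgeSet_adj] at hadj
    obtain ⟨⟨e, he, hee⟩, hne⟩ := hadj
    exact h z (Ne.symm hne) e he hee

theorem mem_nbrs [Fintype V] (ends : E → Sym2 V) (S : Finset E) (s w : V) :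
    w ∈ nbrs ends S s ↔ w ≠ s ∧ ∃ e ∈ S, ends e = s(s, w) := by
  unfold nbrs
  simp only [Finset.mem_filter, Finset.mem_univ, true_and]

theorem BB_isolated [Fintype V] (ends : E → Sym2 V) (S : Finset E) (s u : V) (hu : u ≠ s) :
    BB R ends S s (nbrs ends S s) ∅ = q R * BB R ends S s (nbrs ends S s) {u} := by
  unfold BB
  rw [Finset.mul_sum]
  apply Finset.sum_congr rfl
  intro A hA
  rw [Finset.mem_filter, Finset.mem_powerset] at hA
  obtain ⟨hAS, hA⟩ := hA
  rw [k_isolated ends s u hu A]
  · ring
  · intro w hw e he hee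
    have h1 : w ∈ nbrs ends S s := (mem_nbrs ends S s w).2 ⟨hw, e, hAS he, hee⟩
    have h2 := hA w h1
    rw [Finset.disjoint_left] at h2
    exact h2 he ((mem_del ends S s w e).2 ⟨hAS he, hee⟩)

theorem spanningSub_loop (ends : E → Sym2 V) (A : Finset E) (e : E) (h : (ends e).IsDiag) :
    spanningSub ends (insert e A) = spanningSub ends A := by
  ext a b
  simp only [spanningSub, SimpleGraph.fromEdgeSet_adj, Set.mem_ofPred_eq, Finset.mem_insert]
  constructor
  · rintro ⟨⟨f, rfl | hf, hfe⟩, hab⟩
    · rw [hfe, Sym2.mk_isDiag_iff] at h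
      exact absurd h hab
    · exact ⟨⟨f, hf, hfe⟩, hab⟩
  · rintro ⟨⟨f, hf, hfe⟩, hab⟩
    exact ⟨⟨f, Or.inr hf, hfe⟩, hab⟩

theorem mem_nonLoops {W : Type*} (ends : E → Sym2 W) (S : Finset E) (e : E) :
    e ∈ nonLoops ends S ↔ e ∈ S ∧ ¬ (ends e).IsDiag := by
  unfold nonLoops
  simp only [Finset.mem_filter]

theorem spanningSub_nonLoops {W : Type*} (ends : E → Sym2 W) (A : Finset E) :
    spanningSub ends (nonLoops ends A) = spanningSub ends A := by
  ext a b
  simp only [spanningSub, SimpleGraph.fromEdgeSet_adj, Set.mem_ofPred_eq, mem_nonLoops]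
  constructor
  · rintro ⟨⟨f, ⟨hf, -⟩, hfe⟩, hab⟩
    exact ⟨⟨f, hf, hfe⟩, hab⟩
  · rintro ⟨⟨f, hf, hfe⟩, hab⟩
    refine ⟨⟨f, ⟨hf, ?_⟩, hfe⟩, hab⟩
    rw [hfe, Sym2.mk_isDiag_iff]
    exact hab

theorem sum_loops [DecidableEq V] (ends : E → Sym2 V) (s : V) (U : Finset V) (S T : Finset E)
    (hST : Disjoint S T) (hT : ∀ e ∈ T, (contractEnds ends (insert s U) e).IsDiag) :
    ∑ A ∈ (T ∪ S).powerset, vv R ^ A.card * q R ^ k ends s A U =
      MvPolynomial.X 1 ^ T.card * ∑ A ∈ S.powerset, vv R ^ A.card * q R ^ k ends s A U := by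
  induction T using Finset.induction_on with
  | empty => simp
  | insert e T he ih =>
    rw [Finset.disjoint_insert_right] at hST
    have heS : e ∉ T ∪ S := by
      rw [Finset.mem_union, not_or]
      exact ⟨he, hST.1⟩
    rw [Finset.insert_union, Finset.sum_powerset_insert heS, Finset.card_insert_of_notMem he,
      pow_succ, mul_comm (MvPolynomial.X 1 ^ T.card) (MvPolynomial.X 1), mul_assoc,
      ← ih hST.2 (fun f hf => hT f (Finset.mem_insert_of_mem hf))]
    have h1 : ∀ A ∈ (T ∪ S).powerset, vv R ^ (insert e A).card * q R ^ k ends s (insert e A) U =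
        vv R * (vv R ^ A.card * q R ^ k ends s A U) := by
      intro A hA
      have heA : e ∉ A := fun h => heS (Finset.mem_powerset.1 hA h)
      rw [Finset.card_insert_of_notMem heA, ← nc_contract ends s (insert e A) U,
        spanningSub_loop _ _ _ (hT e (Finset.mem_insert_self _ _)), nc_contract]
      ring
    rw [Finset.sum_congr rfl h1, ← Finset.mul_sum]
    have h2 : (MvPolynomial.X 1 : MvPolynomial (Fin 2) R) = 1 + vv R := by
      rw [vv]
      ring
    rw [h2]
    ring

/-- The loops created by the contraction, apart from those coming from edges between `s` and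
`U`. -/
noncomputable def extra [DecidableEq V] (ends : E → Sym2 V) (S : Finset E) (s : V)
    (U : Finset V) : Finset E :=
  open Classical in
  S.filter fun e => (contractEnds ends (insert s U) e).IsDiag ∧ ∀ w ∈ U, e ∉ del ends S s w

theorem ZZ_contract [DecidableEq V] (ends : E → Sym2 V) (S : Finset E) (s : V) (U : Finset V) :
    ZZ R ends S s U ∅ = MvPolynomial.X 1 ^ (extra ends S s U).card *
      ∑ A ∈ (nonLoops (contractEnds ends (insert s U)) S).powerset,
        vv R ^ A.card * q R ^ nc (spanningSub (contractEnds ends (insert s U)) A) := by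
  classical
  have hmem : ∀ e, e ∈ extra ends S s U ↔ e ∈ S ∧ (contractEnds ends (insert s U) e).IsDiag ∧
      ∀ w ∈ U, e ∉ del ends S s w := by
    intro e
    unfold extra
    simp only [Finset.mem_filter]
  have h1 := sum_loops (R := R) ends s U (nonLoops (contractEnds ends (insert s U)) S)
    (extra ends S s U) ?_ ?_
  · simp only [nc_contract]
    rw [← h1, ZZ]
    apply Finset.sum_congr _ (fun _ _ => rfl)
    ext A
    simp only [Finset.mem_filter, Finset.mem_powerset, Finset.notMem_empty, false_imp_iff,
      implies_true, and_true]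
    constructor
    · rintro ⟨hAS, hA⟩ e he
      rw [Finset.mem_union, hmem, mem_nonLoops]
      by_cases hd : (contractEnds ends (insert s U) e).IsDiag
      · left
        refine ⟨hAS he, hd, fun w hw => ?_⟩
        exact Finset.disjoint_left.1 (hA w hw) he
      · exact Or.inr ⟨hAS he, hd⟩
    · intro hA
      refine ⟨fun e he => ?_, fun w hw => ?_⟩
      · have := hA he
        rw [Finset.mem_union, hmem, mem_nonLoops] at this
        rcases this with h | h
        · exact h.1
        · exact h.1
      · rw [Finset.disjoint_left]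
        intro e he hew
        have := hA he
        rw [Finset.mem_union, hmem, mem_nonLoops] at this
        rcases this with h | h
        · exact h.2.2 w hw hew
        · apply h.2
          rw [mem_del] at hew
          rw [contractEnds, hew.2, Sym2.map_mk, Sym2.mk_isDiag_iff]
          exact Quotient.sound (Or.inr ⟨Finset.mem_insert_self _ _, Finset.mem_insert_of_mem hw⟩)
  · rw [Finset.disjoint_left]
    intro e he hee
    rw [hmem] at hee
    rw [mem_nonLoops] at he
    exact he.2 hee.2.1
  · intro e he
    rw [hmem] at he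
    exact he.2.1

/-- The partition function of a contraction, from its Tutte polynomial. -/
theorem ZZ_tutte [Fintype V] [DecidableEq V] (ends : E → Sym2 V) (S : Finset E) (s : V)
    (U : Finset V) (hs : s ∉ U) (hconn : (spanningSub ends S).Connected) :
    ZZ R ends S s U ∅ * (MvPolynomial.X 1 - 1) ^ U.card =
      MvPolynomial.X 1 ^ (extra ends S s U).card * tutteContract R ends S (insert s U) *
        ((MvPolynomial.X 0 - 1) * (MvPolynomial.X 1 - 1) ^ Fintype.card V) := by
  have : Nonempty (Quotient (identify (insert s U))) := ⟨Quotient.mk _ s⟩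
  have : Finite (Quotient (identify (insert s U))) := Quotient.finite _
  rw [ZZ_contract, ← tutte_mul, ← card_contract s U hs, tutteContract, pow_add]
  · ring
  · rw [spanningSub_nonLoops, nc_contract, k]
    apply nc_of_connected
    exact hconn.mono le_sup_left

theorem exists_nbr [Fintype V] [Nontrivial V] (ends : E → Sym2 V) (S : Finset E) (s : V)
    (hconn : (spanningSub ends S).Connected) : ∃ u, u ∈ nbrs ends S s := by
  obtain ⟨t, ht⟩ := exists_ne s
  obtain ⟨w⟩ := hconn.preconnected s t
  cases w with
  | nil => exact absurd rfl ht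
  | @cons _ z _ hadj _ =>
    rw [spanningSub, SimpleGraph.fromEdgeSet_adj] at hadj
    obtain ⟨⟨e, he, hee⟩, hne⟩ := hadj
    exact ⟨z, (mem_nbrs ends S s z).2 ⟨Ne.symm hne, e, he, hee⟩⟩

/-- Geometric sums. -/
noncomputable def geo (R : Type w) [CommRing R] (m : ℕ) : MvPolynomial (Fin 2) R :=
  ∑ i ∈ range m, MvPolynomial.X 1 ^ i

theorem prod_geo (ends : E → Sym2 V) (S : Finset E) (s : V) (Y : Finset V) :
    ∏ w ∈ Y, ((MvPolynomial.X 1 : MvPolynomial (Fin 2) R) ^ (del ends S s w).card - 1) =
      (∏ w ∈ Y, geo R (del ends S s w).card) * (MvPolynomial.X 1 - 1) ^ Y.card := by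
  rw [← Finset.prod_const, ← Finset.prod_mul_distrib]
  apply Finset.prod_congr rfl
  intro w _
  rw [geo, geom_sum_mul]

/-- The explicit formula, multiplied by `(x - 1) (y - 1) ^ |V|`. -/
theorem formula_mul [Fintype V] [DecidableEq V] (ends : E → Sym2 V) (S : Finset E) (s u : V)
    (hu : u ∈ nbrs ends S s) (hconn : (spanningSub ends S).Connected) :
    tutte R ends S * ((MvPolynomial.X 0 - 1) * (MvPolynomial.X 1 - 1) ^ Fintype.card V) =
      (∑ Y ∈ ((nbrs ends S s).erase u).powerset, (-1) ^ Y.card *
          ((MvPolynomial.X 0 - 1) * (∏ w ∈ Y, geo R (del ends S s w).card) *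
            MvPolynomial.X 1 ^ (extra ends S s (insert u Y)).card *
              tutteContract R ends S (insert s (insert u Y))) -
        ∑ Y ∈ (nbrs ends S s).powerset.erase ∅, (-1) ^ Y.card *
          ((∏ w ∈ Y, geo R (del ends S s w).card) *
            MvPolynomial.X 1 ^ (extra ends S s Y).card * tutteContract R ends S (insert s Y))) *
        ((MvPolynomial.X 0 - 1) * (MvPolynomial.X 1 - 1) ^ Fintype.card V) := by
  have : Nonempty V := ⟨s⟩
  have hN : ∀ w ∈ nbrs ends S s, w ≠ s := fun w hw => ((mem_nbrs ends S s w).1 hw).1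
  have e1 : tutte R ends S * ((MvPolynomial.X 0 - 1) * (MvPolynomial.X 1 - 1) ^ Fintype.card V) =
      ZZ R ends S s ∅ ∅ := by
    rw [← Nat.card_eq_fintype_card, tutte_mul ends S (nc_of_connected _ hconn), ZZ]
    simp [k_empty]
  have e2 := BB_eq (R := R) ends S s (nbrs ends S s) ∅
  rw [Finset.empty_union, ← Finset.add_sum_erase _ _ (Finset.empty_mem_powerset _)] at e2
  have e3 := BB_eq (R := R) ends S s ((nbrs ends S s).erase u) {u}
  rw [Finset.singleton_union, Finset.insert_erase hu] at e3
  have e4 := BB_isolated (R := R) ends S s u (hN u hu)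
  have e5 : ZZ R ends S s ∅ ∅ = q R * BB R ends S s (nbrs ends S s) {u} -
      ∑ Y ∈ (nbrs ends S s).powerset.erase ∅, (-1) ^ Y.card * ZZ R ends S s ∅ Y := by
    rw [← e4, e2]
    simp
  rw [e1, e5, e3, sub_mul, Finset.mul_sum, Finset.sum_mul, Finset.sum_mul]
  congr 1
  · apply Finset.sum_congr rfl
    intro Y hY
    rw [Finset.mem_powerset] at hY
    have huY : u ∉ Y := fun h => Finset.notMem_erase u _ (hY h)
    have hsY : s ∉ insert u Y := by
      rw [Finset.mem_insert, not_or]
      refine ⟨(hN u hu).symm, fun h => hN s ?_ rfl⟩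
      exact Finset.mem_of_mem_erase (hY h)
    have h6 := ZZ_tutte (R := R) ends S s (insert u Y) hsY hconn
    rw [Finset.card_insert_of_notMem huY] at h6
    rw [ZZ_prod ends S s Y {u} (by rwa [Finset.disjoint_singleton_left]), prod_geo,
      Finset.singleton_union, q]
    linear_combination ((-1) ^ Y.card * (MvPolynomial.X 0 - 1) *
      (∏ w ∈ Y, geo R (del ends S s w).card)) * h6
  · apply Finset.sum_congr rfl
    intro Y hY
    rw [Finset.mem_erase, Finset.mem_powerset] at hY
    have hsY : s ∉ Y := fun h => hN s (hY.2 h) rfl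
    have h6 := ZZ_tutte (R := R) ends S s Y hsY hconn
    rw [ZZ_prod ends S s Y ∅ (Finset.disjoint_empty_left _), prod_geo, Finset.empty_union]
    linear_combination ((-1) ^ Y.card * (∏ w ∈ Y, geo R (del ends S s w).card)) * h6

end Alg

theorem X_sub_one_ne_zero {R : Type w} [CommRing R] [Nontrivial R] (i : Fin 2) :
    (MvPolynomial.X i - 1 : MvPolynomial (Fin 2) R) ≠ 0 := by
  intro h
  have := congrArg (MvPolynomial.eval (fun _ => (0 : R))) h
  simp at this

/-- **MP_8e541a_co, answered positively.** Let `G` be a connected multigraph (vertex set `V`, edge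
set `S`) with at least two vertices and `s` a vertex. Over any integral domain `R` (for instance
`ℚ` or `ℤ`) the Tutte polynomial of `G` lies in the ideal of `R[x, y]` generated by the Tutte
polynomials of the contractions `G_W`, `W` a nonempty set of neighbours of `s`. -/
theorem result (R : Type w) [CommRing R] [IsDomain R] {V : Type u} [Fintype V] [DecidableEq V]
    [Nontrivial V] {E : Type v} (ends : E → Sym2 V) (S : Finset E)
    (hconn : (spanningSub ends S).Connected) (s : V) :
    tutte R ends S ∈ Ideal.span {p : MvPolynomial (Fin 2) R |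
      ∃ W ⊆ nbrs ends S s, W.Nonempty ∧ p = tutteContract R ends S (insert s W)} := by
  classical
  obtain ⟨u, hu⟩ := exists_nbr ends S s hconn
  have h := formula_mul (R := R) ends S s u hu hconn
  have hc : ((MvPolynomial.X 0 - 1) * (MvPolynomial.X 1 - 1) ^ Fintype.card V :
      MvPolynomial (Fin 2) R) ≠ 0 :=
    mul_ne_zero (X_sub_one_ne_zero 0) (pow_ne_zero _ (X_sub_one_ne_zero 1))
  rw [mul_right_cancel₀ hc h]
  apply Ideal.sub_mem
  · apply Ideal.sum_mem
    intro Y hY
    rw [Finset.mem_powerset] at hY
    rw [← mul_assoc]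
    apply Ideal.mul_mem_left
    apply Ideal.subset_span
    refine ⟨insert u Y, ?_, Finset.insert_nonempty _ _, rfl⟩
    intro w hw
    rcases Finset.mem_insert.1 hw with rfl | hw
    · exact hu
    · exact Finset.mem_of_mem_erase (hY hw)
  · apply Ideal.sum_mem
    intro Y hY
    rw [Finset.mem_erase, Finset.mem_powerset] at hY
    rw [← mul_assoc]
    apply Ideal.mul_mem_left
    apply Ideal.subset_span
    exact ⟨Y, hY.2, Finset.nonempty_iff_ne_empty.2 hY.1, rfl⟩

end Pool.Agent.Results.MP_8e541a_co.Membership
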